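import Mathlib
import Pool.Agent.NH85.CE.Base
import Pool.Agent.NH85.CE.Even

/-!
# The weak form of Malle's conjecture for the groups `W ⋊ H ≤ C₂ ≀ H`, `W` a binary code

Let `H ≤ S_m` be transitive and `W ≤ 𝔽₂ ^ m` a code, stable under `H`, of minimum weight `δ ≤ 3`. If `H`
occurs over the number field `K` and `N_{m,K}(X; H) = O(X ^ (2 / δ - 1 / 2 + ε))` for all `ε > 0` (and `H`
contains no transposition if `δ = 3`), then the weak form of Malle's conjecture holds over `K` for the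
group `W ⋊ H ≤ C₂ ≀ H`, of degree `2 m`; here `a(W ⋊ H) = 1 / δ`. The hypothesis holds for all groups
`Γ` which are Galois groups over `K`, in any faithful transitive action of large degree. An example is
the group of the even permutations in `C₂ ≀ Γ` (`δ = 2`).
-/

set_option autoImplicit false

open Filter

namespace Pool.Agent.Results.MP_af4c59_nt.CodeExtensions

/-- The wreath product `A ≀ S_n = A ^ n ⋊ S_n`. -/
abbrev Wreath (A : Type) [Group A] (n : ℕ) : Type :=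
  (Fin n → A) ⋊[mulAutArrow] Equiv.Perm (Fin n)

/-- The index of a permutation: `d` minus the number of its cycles, fixed points included. -/
def ind {d : ℕ} (g : Equiv.Perm (Fin d)) : ℕ := g.cycleType.sum - Multiset.card g.cycleType

/-- `a(G) = 1 / min ind(g)`, the minimum over the `g ≠ 1` in `G`. -/
noncomputable def a {d : ℕ} (G : Subgroup (Equiv.Perm (Fin d))) : ℝ :=
  1 / (sInf {j : ℕ | ∃ g ∈ G, g ≠ 1 ∧ j = ind g} : ℕ)

/-- `N_{d,K}(X; G)`: the number of fields `L` between `K` and its algebraic closure, of degree `d`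
over `K`, whose Galois group, acting on the embeddings, is `G` (up to numbering), and whose relative
discriminant has norm at most `X` (that is, `|d_L| ≤ X |d_K| ^ d`). -/
noncomputable def N (K : Type) [Field K] [NumberField K] (d : ℕ)
    (G : Subgroup (Equiv.Perm (Fin d))) (X : ℝ) : ℕ :=
  Set.ncard {L : IntermediateField K (AlgebraicClosure K) |
    Module.finrank K L = d ∧
    (∃ e : (L →ₐ[K] AlgebraicClosure K) ≃ Fin d, ∀ π : Equiv.Perm (Fin d),
      π ∈ G ↔ ∃ σ : AlgebraicClosure K ≃ₐ[K] AlgebraicClosure K,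
        ∀ φ : L →ₐ[K] AlgebraicClosure K, e (σ.toAlgHom.comp φ) = π (e φ)) ∧
    ∃ h : NumberField L,
      ((|@NumberField.discr L _ h| : ℤ) : ℝ) ≤ X * ((|NumberField.discr K| : ℤ) : ℝ) ^ d}

/-- The weak form of Malle's conjecture for `(K, G)`. -/
def WeakMalle (K : Type) [Field K] [NumberField K] {d : ℕ} (G : Subgroup (Equiv.Perm (Fin d))) :
    Prop :=
  (∃ c₁ : ℝ, 0 < c₁ ∧ ∃ X₀ : ℝ, ∀ X : ℝ, X₀ ≤ X → c₁ * X ^ a G ≤ N K d G X) ∧
  (∀ ε : ℝ, 0 < ε → ∃ c₂ : ℝ, 0 < c₂ ∧ ∃ X₀ : ℝ, ∀ X : ℝ, X₀ ≤ X →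
    (N K d G X : ℝ) < c₂ * X ^ (a G + ε))

/-- `H` is transitive, occurs over `K`, and `N_{m,K}(X; H) = O(X ^ (A + ε))` for all `ε > 0`. -/
def Bound (K : Type) [Field K] [NumberField K] {m : ℕ} (H : Subgroup (Equiv.Perm (Fin m)))
    (A : ℝ) : Prop :=
  (∀ x y : Fin m, ∃ h ∈ H, h x = y) ∧ (∃ X : ℝ, 0 < N K m H X) ∧
  ∀ ε : ℝ, 0 < ε → ∃ C X₀ : ℝ, ∀ X : ℝ, X₀ ≤ X → (N K m H X : ℝ) ≤ C * X ^ (A + ε)

/-- The weight of a word. -/
def wt {m : ℕ} (w : Fin m → ZMod 2) : ℕ := (Finset.univ.filter (fun x => w x ≠ 0)).card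

/-- The code `W` is stable under the group `H`. -/
def Stable {m : ℕ} (H : Subgroup (Equiv.Perm (Fin m)))
    (W : Submodule (ZMod 2) (Fin m → ZMod 2)) : Prop :=
  ∀ h ∈ H, ∀ w ∈ W, (fun x => w (h⁻¹ x)) ∈ W

/-- `δ` is the minimum weight of the code `W`. -/
def MinWt {m : ℕ} (W : Submodule (ZMod 2) (Fin m → ZMod 2)) (δ : ℕ) : Prop :=
  IsLeast {k : ℕ | ∃ w ∈ W, w ≠ 0 ∧ k = wt w} δ

/-- `G ≤ S_d` is, up to a bijection `f` of `{1, ..., d}` with `{1, ..., m} × 𝔽₂`, the group `W ⋊ H`: it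
consists of the permutations `(x, b) ↦ (h x, b + w (h x))`, `h ∈ H`, `w ∈ W`. -/
def IsCodeExt {m : ℕ} (H : Subgroup (Equiv.Perm (Fin m))) (W : Submodule (ZMod 2) (Fin m → ZMod 2))
    {d : ℕ} (G : Subgroup (Equiv.Perm (Fin d))) : Prop :=
  ∃ f : Fin d ≃ Fin m × ZMod 2, ∀ π : Equiv.Perm (Fin d), π ∈ G ↔
    ∃ h ∈ H, ∃ w ∈ W, ∀ i, f (π i) = (h (f i).1, (f i).2 + w (h (f i).1))

/-- `G ≤ S_d` is, up to a bijection `f` of `{1, ..., d}` with `{1, ..., m} × 𝔽₂`, the group of the even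
permutations in the wreath product `C₂ ≀ H`: the even permutations `π` for which there is `h ∈ H` such
that `π` maps the block `{x} × 𝔽₂` to the block `{h x} × 𝔽₂`, for all `x`. -/
def IsEvenC2Wr {m : ℕ} (H : Subgroup (Equiv.Perm (Fin m))) {d : ℕ}
    (G : Subgroup (Equiv.Perm (Fin d))) : Prop :=
  ∃ f : Fin d ≃ Fin m × ZMod 2, ∀ π : Equiv.Perm (Fin d), π ∈ G ↔
    Equiv.Perm.sign π = 1 ∧ ∃ h ∈ H, ∀ i, (f (π i)).1 = h (f i).1

/-- `H ≤ S_m` is the group `Γ`, acting on `P`. -/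
def IsAction (Γ P : Type) [Group Γ] [MulAction Γ P] {m : ℕ} (H : Subgroup (Equiv.Perm (Fin m))) :
    Prop :=
  ∃ f : Fin m ≃ P, ∀ π : Equiv.Perm (Fin m), π ∈ H ↔ ∃ γ : Γ, ∀ i, f (π i) = γ • f i

/-- `Γ` is the Galois group of a Galois extension of `K`. -/
def Realizable (K Γ : Type) [Field K] [Group Γ] : Prop :=
  ∃ (L : Type) (_ : Field L) (_ : Algebra K L), IsGalois K L ∧ Nonempty (Γ ≃* (L ≃ₐ[K] L))

/-- `Γ` has a subgroup `U` with trivial normal core and the action of `Γ` on `P` has a base `B` with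
`[Γ : U] ^ 2 |B| ≤ c |P|`. -/
def Large (Γ P : Type) [Group Γ] [MulAction Γ P] (c : ℝ) : Prop :=
  ∃ (U : Subgroup Γ) (B : Finset P), U.normalCore = ⊥ ∧
    (∀ γ : Γ, (∀ x ∈ B, γ • x = x) → γ = 1) ∧ (U.index : ℝ) ^ 2 * B.card ≤ c * Nat.card P

/-- The conclusions for `G`. -/
def Good (K : Type) [Field K] [NumberField K] (m δ : ℕ) {d : ℕ}
    (G : Subgroup (Equiv.Perm (Fin d))) : Prop :=
  WeakMalle K G ∧ a G = 1 / δ ∧ d = 2 * m ∧ Bound K G (1 / δ)

open Pool.Agent.NH85.ML Pool.Agent.TH444.ML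

section transfer

variable {m : ℕ} {H : Subgroup (Equiv.Perm (Fin m))} {W : Submodule (ZMod 2) (Fin m → ZMod 2)}
  {d : ℕ} {G : Subgroup (Equiv.Perm (Fin d))}

/-- the bijection of `𝔽₂` with `{false, true}` -/
def eB : ZMod 2 ≃ Bool where
  toFun b := decide (b ≠ 0)
  invFun c := if c then 1 else 0
  left_inv := by decide
  right_inv := by decide

theorem eB_add (b c : ZMod 2) : eB (b + c) = xor (eB b) (decide (c ≠ 0)) := by
  revert b c
  decide

def fB (f : Fin d ≃ Fin m × ZMod 2) : Fin d ≃ Fin m × Bool :=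
  f.trans ((Equiv.refl (Fin m)).prodCongr eB)

theorem fB_apply (f : Fin d ≃ Fin m × ZMod 2) (i : Fin d) : fB f i = ((f i).1, eB (f i).2) := rfl

theorem mem_iff_of (hW : Stable H W) (f : Fin d ≃ Fin m × ZMod 2) (π : Equiv.Perm (Fin d)) :
    (∃ h ∈ H, ∃ w ∈ W, ∀ i, f (π i) = (h (f i).1, (f i).2 + w (h (f i).1))) ↔
      (fB f).permCongr π ∈ Pool.Agent.NH85.CE.CodeG H W hW := by
  constructor
  · rintro ⟨h, hh, w, hw, h1⟩
    refine ⟨h, hh, w, hw, fun x => ?_⟩
    obtain ⟨i, rfl⟩ := (fB f).surjective x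
    rw [Equiv.permCongr_apply, Equiv.symm_apply_apply, fB_apply, h1, fB_apply]
    exact Prod.ext rfl (eB_add _ _)
  · rintro ⟨h, hh, w, hw, h1⟩
    refine ⟨h, hh, w, hw, fun i => ?_⟩
    have h2 := h1 (fB f i)
    rw [Equiv.permCongr_apply, Equiv.symm_apply_apply, fB_apply, fB_apply] at h2
    have h3 := congrArg Prod.fst h2
    have h4 := congrArg Prod.snd h2
    simp only at h3 h4
    refine Prod.ext h3 ?_
    apply eB.injective
    rw [h4, eB_add]

theorem bound_of (K : Type) [Field K] [NumberField K] (hd : 0 < d) (A : ℝ)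
    (htr : ∀ x y : Fin d, ∃ g ∈ G, g x = y) (hne : (GalX K (AlgebraicClosure K) G).Nonempty)
    (hup : ∀ ε : ℝ, 0 < ε → Upper K (AlgebraicClosure K) G (A + ε)) : Bound K G A := by
  obtain ⟨D, hDdef⟩ : ∃ D : ℝ, D = ((|NumberField.discr K| : ℤ) : ℝ) ^ d := ⟨_, rfl⟩
  have hD1 : 1 ≤ D := by
    have h1 : (1 : ℤ) ≤ |NumberField.discr K| := Int.one_le_abs (NumberField.discr_ne_zero K)
    have h2 : (1 : ℝ) ≤ ((|NumberField.discr K| : ℤ) : ℝ) := by exact_mod_cast h1
    rw [hDdef]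
    exact one_le_pow₀ h2
  have hcnt : ∀ X : ℝ, N K d G X = Set.ncard (TTX K (AlgebraicClosure K) G (X * D)) := by
    intro X
    rw [hDdef, ← cnt_TTX K hd]
    rfl
  refine ⟨htr, ?_, ?_⟩
  · obtain ⟨L, hL⟩ := hne
    refine ⟨dsc L, ?_⟩
    rw [hcnt, Set.ncard_pos (TTX_finite G _)]
    have h1 := one_le_dsc L
    exact ⟨L, hL, by nlinarith⟩
  · intro ε hε
    obtain ⟨C, hC0, hC⟩ := hup ε hε
    refine ⟨C * D ^ (A + ε), 1, fun X hX => ?_⟩
    rw [hcnt]
    refine (hC (X * D) (by nlinarith)).trans (le_of_eq ?_)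
    rw [Real.mul_rpow (by linarith) (by linarith)]
    ring

theorem of_bound (K : Type) [Field K] [NumberField K] (hm : 0 < m) {A : ℝ} (h : Bound K H A) :
    (GalX K (AlgebraicClosure K) H).Nonempty ∧
      ∀ ε : ℝ, 0 < ε → Upper K (AlgebraicClosure K) H (A + ε) := by
  obtain ⟨-, hne, hup⟩ := h
  constructor
  · obtain ⟨C, X₀, hC⟩ := hup 1 one_pos
    exact (good_of_cnt K hm H C X₀ hC hne).ne
  · intro ε hε
    obtain ⟨C, X₀, hC⟩ := hup ε hε
    exact (good_of_cnt K hm H C X₀ hC hne).upper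

/-- the main step -/
theorem step (K : Type) [Field K] [NumberField K] {A : ℝ} (hH : Bound K H A) {δ : ℕ}
    (hW : Stable H W) (hmin : MinWt W δ) (hδ3 : δ ≤ 3) (hA : A ≤ 2 / δ - 1 / 2)
    (hmov : δ ≤ 2 ∨ ∀ h ∈ H, ¬ h.IsSwap) (hG : IsCodeExt H W G) : Good K m δ G := by
  obtain ⟨f, hf⟩ := hG
  obtain ⟨⟨w, hw, hw0, hwδ⟩, hmin'⟩ := hmin
  have hf' : ∀ π : Equiv.Perm (Fin d), π ∈ G ↔
      (fB f).permCongr π ∈ Pool.Agent.NH85.CE.CodeG H W hW := by
    intro π
    rw [hf]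
    exact mem_iff_of hW f π
  have hwtc : ∀ w : Fin m → ZMod 2, Pool.Agent.NH85.CE.wt w = wt w := fun w =>
    Pool.Agent.NH85.CE.wt_card w
  have hδ1 : 1 ≤ δ := by
    rw [hwδ]
    by_contra h
    have h2 : wt w = 0 := by omega
    unfold wt at h2
    rw [Finset.card_eq_zero, Finset.filter_eq_empty_iff] at h2
    apply hw0
    funext x
    have := h2 (Finset.mem_univ x)
    simpa using this
  have hm : 0 < m := by
    rcases Nat.eq_zero_or_pos m with h | h
    · subst h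
      exact absurd (Subsingleton.elim w 0) hw0
    · exact h
  have hd : d = 2 * m := by
    have := Nat.card_congr f
    rw [Nat.card_prod] at this
    simpa [mul_comm] using this
  have hmin2 : ∀ w ∈ W, w ≠ 0 → δ ≤ Pool.Agent.NH85.CE.wt w := by
    intro w' hw' hw0'
    rw [hwtc]
    exact hmin' ⟨w', hw', hw0', rfl⟩
  have hmov' : ∀ h ∈ H, h ≠ 1 → δ ≤ h.support.card := by
    intro h hh h1
    have h2 := Equiv.Perm.two_le_card_support_of_ne_one h1
    rcases hmov with h3 | h3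
    · omega
    · have h4 : h.support.card ≠ 2 := fun h5 => h3 h hh (Equiv.Perm.card_support_eq_two.1 h5)
      omega
  obtain ⟨hne, hup⟩ := of_bound K hm hH
  obtain ⟨h1, h2, h3, h4⟩ := Pool.Agent.NH85.CE.weak_code' K hH.1 hW (fB f) hf' δ hδ1 hδ3 w hw
    ((hwtc w).trans hwδ.symm) hmin2 A hA hne hup
  have h5 := Pool.Agent.NH85.CE.least_code hW G (fB f) hf' δ hδ1 w hw
    ((hwtc w).trans hwδ.symm) hmin2 hmov'
  have ha : a G = 1 / δ := by
    have h6 : sInf {j : ℕ | ∃ g ∈ G, g ≠ 1 ∧ j = ind g} = δ := h5.csInf_eq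
    unfold a
    rw [h6]
  have htr : ∀ x y : Fin d, ∃ g ∈ G, g x = y := by
    intro i j
    obtain ⟨h, hh, hij⟩ := hH.1 (f i).1 (f j).1
    -- a word with `w (h x) = b`
    have hword : ∀ (x : Fin m) (b : ZMod 2), ∃ u ∈ W, u x = b := by
      intro x b
      obtain ⟨y, hy⟩ : ∃ y, w y ≠ 0 := by
        by_contra hcon
        push Not at hcon
        exact hw0 (funext hcon)
      obtain ⟨k, hk, hky⟩ := hH.1 y x
      have hy1 : w y = 1 := by
        have key : ∀ c : ZMod 2, c ≠ 0 → c = 1 := by decide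
        exact key _ hy
      have h6 : (fun z => w (k⁻¹ z)) ∈ W := hW k hk w hw
      have h7 : (fun z => w (k⁻¹ z)) x = 1 := by
        change w (k⁻¹ x) = 1
        rw [← hky, Pool.Agent.NH85.CE.inv_app]
        exact hy1
      have hb : b = 0 ∨ b = 1 := by
        have key : ∀ c : ZMod 2, c = 0 ∨ c = 1 := by decide
        exact key b
      rcases hb with hb | hb
      · exact ⟨0, W.zero_mem, hb.symm⟩
      · exact ⟨_, h6, h7.trans hb.symm⟩
    obtain ⟨u, hu, hub⟩ := hword (f j).1 ((f j).2 - (f i).2)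
    let σ : Equiv.Perm (Fin m × ZMod 2) :=
      { toFun := fun x => (h x.1, x.2 + u (h x.1))
        invFun := fun x => (h⁻¹ x.1, x.2 - u x.1)
        left_inv := by
          rintro ⟨x, b⟩
          simp [Pool.Agent.NH85.CE.inv_app]
        right_inv := by
          rintro ⟨x, b⟩
          simp }
    have hσ : ∀ x, σ x = (h x.1, x.2 + u (h x.1)) := fun x => rfl
    refine ⟨f.symm.permCongr σ, (hf _).2 ⟨h, hh, u, hu, fun k => ?_⟩, ?_⟩
    · rw [Equiv.permCongr_apply, Equiv.symm_symm, Equiv.apply_symm_apply, hσ]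
    · rw [Equiv.permCongr_apply, Equiv.symm_symm, Equiv.symm_apply_eq, hσ, hij, hub]
      exact Prod.ext rfl (by simp)
  refine ⟨?_, ha, hd, ?_⟩
  · unfold WeakMalle
    rw [ha]
    exact ⟨h1, h2⟩
  · exact bound_of K (by omega) _ htr h3 h4

/-- the group exists -/
theorem exists_ext (hW : Stable H W) : ∃ (d : ℕ) (G : Subgroup (Equiv.Perm (Fin d))),
    IsCodeExt H W G := by
  have hcard : Nat.card (Fin m × ZMod 2) = 2 * m := by
    rw [Nat.card_prod, mul_comm]
    simp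
  let f : Fin (2 * m) ≃ Fin m × ZMod 2 := (Finite.equivFinOfCardEq hcard).symm
  let e : Equiv.Perm (Fin (2 * m)) ≃* Equiv.Perm (Fin m × Bool) := (fB f).permCongrHom
  refine ⟨2 * m, (Pool.Agent.NH85.CE.CodeG H W hW).comap e.toMonoidHom, f, fun π => ?_⟩
  rw [Subgroup.mem_comap, mem_iff_of hW f π]
  rfl

/-- even permutations -/
theorem even_ext (hG : IsEvenC2Wr H G) : IsCodeExt H (Pool.Agent.NH85.CE.evenW m) G := by
  obtain ⟨f, hf⟩ := hG
  refine ⟨f, fun π => ?_⟩
  rw [hf, mem_iff_of (Pool.Agent.NH85.CE.stable_evenW H) f π, ← Pool.Agent.NH85.CE.even_iff,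
    Equiv.Perm.sign_permCongr]
  refine and_congr Iff.rfl ?_
  constructor
  · rintro ⟨h, hh, h1⟩
    refine ⟨h, hh, fun x => ?_⟩
    obtain ⟨i, rfl⟩ := (fB f).surjective x
    rw [Equiv.permCongr_apply, Equiv.symm_apply_apply]
    exact h1 i
  · rintro ⟨h, hh, h1⟩
    refine ⟨h, hh, fun i => ?_⟩
    have h2 := h1 (fB f i)
    rw [Equiv.permCongr_apply, Equiv.symm_apply_apply] at h2
    exact h2

theorem exists_even (H : Subgroup (Equiv.Perm (Fin m))) :
    ∃ (d : ℕ) (G : Subgroup (Equiv.Perm (Fin d))), IsEvenC2Wr H G := by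
  obtain ⟨d, G, hG⟩ := exists_ext (H := H) (W := Pool.Agent.NH85.CE.evenW m)
    (Pool.Agent.NH85.CE.stable_evenW H)
  obtain ⟨f, hf⟩ := hG
  refine ⟨d, G, f, fun π => ?_⟩
  rw [hf, mem_iff_of (Pool.Agent.NH85.CE.stable_evenW H) f π, ← Pool.Agent.NH85.CE.even_iff,
    Equiv.Perm.sign_permCongr]
  refine and_congr Iff.rfl ?_
  constructor
  · rintro ⟨h, hh, h1⟩
    refine ⟨h, hh, fun i => ?_⟩
    have h2 := h1 (fB f i)
    rw [Equiv.permCongr_apply, Equiv.symm_apply_apply] at h2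
    exact h2
  · rintro ⟨h, hh, h1⟩
    refine ⟨h, hh, fun x => ?_⟩
    obtain ⟨i, rfl⟩ := (fB f).surjective x
    rw [Equiv.permCongr_apply, Equiv.symm_apply_apply]
    exact h1 i

theorem even_min (hm : 2 ≤ m) : MinWt (Pool.Agent.NH85.CE.evenW m) 2 := by
  constructor
  · obtain ⟨w, hw, hw0, h⟩ := Pool.Agent.NH85.CE.evenW_two hm
    exact ⟨w, hw, hw0, h.symm⟩
  · rintro k ⟨w, hw, hw0, rfl⟩
    exact Pool.Agent.NH85.CE.evenW_min w hw hw0

end transfer

/-- the action of `Γ` on `P`, transported to `{1, ..., m}` -/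
theorem action_TTX (K : Type) [Field K] [NumberField K] {Γ P : Type} [Group Γ] [MulAction Γ P]
    {m : ℕ} {H : Subgroup (Equiv.Perm (Fin m))} (hH : IsAction Γ P H) (Z : ℝ) :
    TTX K (AlgebraicClosure K) H Z = TTX K (AlgebraicClosure K) (img Γ P) Z := by
  obtain ⟨f, hf⟩ := hH
  have hiff : ∀ L : IntermediateField K (AlgebraicClosure K),
      HasG K (AlgebraicClosure K) H L ↔ HasG K (AlgebraicClosure K) (img Γ P) L := by
    intro L
    refine hasGp_of_equiv K f (img Γ P) (fun π => ?_) L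
    rw [hf]
    constructor
    · rintro ⟨γ, h1⟩
      refine ⟨γ, ?_⟩
      ext x
      rw [Equiv.permCongr_apply, h1, Equiv.apply_symm_apply]
      rfl
    · rintro ⟨γ, h1⟩
      refine ⟨γ, fun i => ?_⟩
      have h2 := congrArg (fun ρ : Equiv.Perm P => ρ (f i)) h1
      rw [Equiv.permCongr_apply, Equiv.symm_apply_apply] at h2
      exact h2.symm
  ext L
  constructor
  · rintro ⟨⟨h1, h2⟩, h3⟩
    exact ⟨⟨h1, (hiff L).1 h2⟩, h3⟩
  · rintro ⟨⟨h1, h2⟩, h3⟩
    exact ⟨⟨h1, (hiff L).2 h2⟩, h3⟩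

theorem gal_of_realizable (K Γ : Type) [Field K] [NumberField K] [Group Γ] [Finite Γ]
    (h : Realizable K Γ) : (Gal K (AlgebraicClosure K) Γ).Nonempty := by
  obtain ⟨F, _, _, hg, ⟨e⟩⟩ := h
  have hfin : Finite (F ≃ₐ[K] F) := Finite.of_equiv Γ e.toEquiv
  have hfd : FiniteDimensional K F := fd_of_finite_aut K F
  let j : F →ₐ[K] AlgebraicClosure K := IsAlgClosed.lift
  let ε : F ≃ₐ[K] j.fieldRange := AlgEquiv.ofInjectiveField j
  refine ⟨j.fieldRange, ?_, ?_, ?_⟩
  · exact Module.Finite.equiv ε.toLinearEquiv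
  · exact IsGalois.of_algEquiv ε
  · exact ⟨(AlgEquiv.autCongr ε).symm.trans e.symm⟩

/-- monotonicity -/
theorem Bound.mono {K : Type} [Field K] [NumberField K] {m : ℕ} {H : Subgroup (Equiv.Perm (Fin m))}
    {A A' : ℝ} (h : Bound K H A) (hA : A ≤ A') : Bound K H A' := by
  obtain ⟨h1, h2, h3⟩ := h
  refine ⟨h1, h2, fun ε hε => ?_⟩
  obtain ⟨C, X₀, hC⟩ := h3 ε hε
  refine ⟨|C|, max X₀ 1, fun X hX => ?_⟩
  have hX0 : X₀ ≤ X := (le_max_left _ _).trans hX
  have hX1 : 1 ≤ X := (le_max_right _ _).trans hX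
  have h4 : (0 : ℝ) ≤ X ^ (A + ε) := Real.rpow_nonneg (by linarith) _
  calc (N K m H X : ℝ) ≤ C * X ^ (A + ε) := hC X hX0
    _ ≤ |C| * X ^ (A + ε) := mul_le_mul_of_nonneg_right (le_abs_self C) h4
    _ ≤ |C| * X ^ (A' + ε) := mul_le_mul_of_nonneg_left
        (Real.rpow_le_rpow_of_exponent_le hX1 (by linarith)) (abs_nonneg C)

theorem action_card {Γ P : Type} [Group Γ] [MulAction Γ P] [Finite P] {m : ℕ}
    {H : Subgroup (Equiv.Perm (Fin m))} (hH : IsAction Γ P H) : m = Nat.card P := by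
  obtain ⟨f, -⟩ := hH
  rw [← Nat.card_congr f, Nat.card_fin]

theorem exists_action (Γ P : Type) [Group Γ] [MulAction Γ P] [Finite P] :
    ∃ (m : ℕ) (H : Subgroup (Equiv.Perm (Fin m))), IsAction Γ P H := by
  let f : Fin (Nat.card P) ≃ P := (Finite.equivFin P).symm
  let e : Equiv.Perm (Fin (Nat.card P)) ≃* Equiv.Perm P := f.permCongrHom
  refine ⟨Nat.card P, (img Γ P).comap e.toMonoidHom, f, fun π => ?_⟩
  rw [Subgroup.mem_comap]
  have h3 : ∀ x, e.toMonoidHom π x = f (π (f.symm x)) := fun x => rfl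
  constructor
  · rintro ⟨γ, h1⟩
    refine ⟨γ, fun i => ?_⟩
    have h2 := congrArg (fun ρ : Equiv.Perm P => ρ (f i)) h1
    simp only [h3, Equiv.symm_apply_apply] at h2
    exact h2.symm
  · rintro ⟨γ, h1⟩
    refine ⟨γ, ?_⟩
    ext x
    rw [h3, h1, Equiv.apply_symm_apply]
    rfl

/-- the bound for groups of large degree -/
theorem bound_action (K : Type) [Field K] [NumberField K] {Γ P : Type} [Group Γ] [Finite Γ]
    [Finite P] [Nonempty P] [MulAction Γ P] [FaithfulSMul Γ P] [MulAction.IsPretransitive Γ P]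
    (hK : (Gal K (AlgebraicClosure K) Γ).Nonempty) (U : Subgroup Γ) (hU : U.normalCore = ⊥)
    (B : Finset P) (hB : ∀ γ : Γ, (∀ x ∈ B, γ • x = x) → γ = 1) {m : ℕ}
    {H : Subgroup (Equiv.Perm (Fin m))} (hH : IsAction Γ P H) :
    Bound K H (2 * U.index ^ 2 * B.card / Nat.card P) := by
  have hm : 0 < m := by
    rw [action_card hH]
    exact Nat.card_pos
  have hinj : Function.Injective (MulAction.toPermHom Γ P) := MulAction.toPerm_injective
  let e : Γ ≃* img Γ P := MonoidHom.ofInjective hinj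
  have hidx : (U.map e.toMonoidHom).index = U.index :=
    Subgroup.index_map_equiv U e
  have hcore : (U.map e.toMonoidHom).normalCore = ⊥ := by
    rw [eq_bot_iff]
    have h1 : ((U.map e.toMonoidHom).normalCore).comap e.toMonoidHom ≤ U.normalCore := by
      have hn : (((U.map e.toMonoidHom).normalCore).comap e.toMonoidHom).Normal := inferInstance
      rw [Subgroup.normal_le_normalCore]
      intro x hx
      have h2 := Subgroup.normalCore_le _ (Subgroup.mem_comap.1 hx)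
      obtain ⟨y, hy, hxy⟩ := Subgroup.mem_map.1 h2
      rw [← e.injective hxy]
      exact hy
    rw [hU] at h1
    intro x hx
    obtain ⟨y, rfl⟩ := e.surjective x
    have h2 : y ∈ (⊥ : Subgroup Γ) := h1 (Subgroup.mem_comap.2 hx)
    rw [Subgroup.mem_bot] at h2 ⊢
    rw [h2, map_one]
  have hbase : ∀ h ∈ img Γ P, (∀ x ∈ B, h x = x) → h = 1 := by
    rintro _ ⟨γ, rfl⟩ h1
    have h2 := hB γ h1
    rw [h2, map_one]
  have hup := Pool.Agent.NH85.CE.few_upper (K := K) (Ω := AlgebraicClosure K)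
    (U.map e.toMonoidHom) B hcore hbase
  rw [hidx] at hup
  obtain ⟨x₀⟩ := (inferInstance : Nonempty P)
  obtain ⟨M, hM⟩ := hK
  obtain ⟨L, hL⟩ := galX_of_gal M hM x₀ (fun x => MulAction.exists_smul_eq Γ x₀ x)
  refine bound_of K hm _ ?_ ?_ ?_
  · obtain ⟨f, hf⟩ := hH
    intro x y
    obtain ⟨γ, hγ⟩ := MulAction.exists_smul_eq Γ (f x) (f y)
    refine ⟨f.symm.permCongr (MulAction.toPerm γ), (hf _).2 ⟨γ, fun i => ?_⟩, ?_⟩
    · rw [Equiv.permCongr_apply, Equiv.symm_symm, Equiv.apply_symm_apply]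
      rfl
    · rw [Equiv.permCongr_apply, Equiv.symm_symm, Equiv.symm_apply_eq]
      exact hγ
  · have h1 : L ∈ TTX K (AlgebraicClosure K) H (dsc L) := by
      rw [action_TTX K hH]
      exact ⟨hL, le_rfl⟩
    exact ⟨L, h1.1⟩
  · intro ε hε
    obtain ⟨C, hC0, hC⟩ := hup
    refine ⟨C, hC0, fun Z hZ => ?_⟩
    rw [action_TTX K hH]
    refine (hC Z hZ).trans ?_
    exact mul_le_mul_of_nonneg_left
      (Real.rpow_le_rpow_of_exponent_le hZ (by linarith)) hC0

/-- All groups `W ⋊ Γ`, for the codes `W ≤ 𝔽₂ ^ P` of minimum weight `δ`. -/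
def AllCodes (K Γ P : Type) [Field K] [NumberField K] [Group Γ] [MulAction Γ P] (δ : ℕ) : Prop :=
  ∀ (m : ℕ) (H : Subgroup (Equiv.Perm (Fin m))), IsAction Γ P H →
    ∀ W : Submodule (ZMod 2) (Fin m → ZMod 2), Stable H W → MinWt W δ →
      ∀ (d : ℕ) (G : Subgroup (Equiv.Perm (Fin d))), IsCodeExt H W G → Good K m δ G

/-- The group of the even permutations in `C₂ ≀ Γ`. -/
def EvenPart (K Γ P : Type) [Field K] [NumberField K] [Group Γ] [MulAction Γ P] : Prop :=
  (∀ (m : ℕ) (H : Subgroup (Equiv.Perm (Fin m))), IsAction Γ P H →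
    ∀ (d : ℕ) (G : Subgroup (Equiv.Perm (Fin d))), IsEvenC2Wr H G → Good K m 2 G) ∧
  ∃ (m : ℕ) (H : Subgroup (Equiv.Perm (Fin m))) (d : ℕ) (G : Subgroup (Equiv.Perm (Fin d))),
    IsAction Γ P H ∧ IsEvenC2Wr H G

theorem all_codes (K : Type) [Field K] [NumberField K] {Γ P : Type} [Group Γ] [Finite Γ]
    [Finite P] [Nonempty P] [MulAction Γ P] [FaithfulSMul Γ P] [MulAction.IsPretransitive Γ P]
    (hK : (Gal K (AlgebraicClosure K) Γ).Nonempty) {δ : ℕ} (hδ1 : 1 ≤ δ) (hδ3 : δ ≤ 3)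
    (hl : Large Γ P ((4 - δ) / (4 * δ))) : AllCodes K Γ P δ := by
  classical
  intro m H hH W hW hmin d G hG
  obtain ⟨U, B, hU, hB, hc⟩ := hl
  have hP : (0 : ℝ) < Nat.card P := by exact_mod_cast (Nat.card_pos : 0 < Nat.card P)
  have hδ0 : (0 : ℝ) < δ := by exact_mod_cast hδ1
  have hb := bound_action K hK U hU B hB hH
  refine step K hb hW hmin hδ3 ?_ ?_ hG
  · rw [div_le_iff₀ hP]
    have e1 : (2 / (δ : ℝ) - 1 / 2) * Nat.card P = 2 * ((4 - δ) / (4 * δ) * Nat.card P) := by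
      field_simp
      ring
    rw [e1]
    calc 2 * (U.index : ℝ) ^ 2 * B.card = 2 * ((U.index : ℝ) ^ 2 * B.card) := by ring
      _ ≤ _ := mul_le_mul_of_nonneg_left hc (by norm_num)
  · by_cases h2 : δ ≤ 2
    · exact Or.inl h2
    · right
      have hδ : δ = 3 := by omega
      subst hδ
      intro h hh hs
      obtain ⟨f, hf⟩ := hH
      obtain ⟨γ, hγ⟩ := (hf h).1 hh
      have hγ1 : γ ≠ 1 := by
        rintro rfl
        have h1 : h = 1 := by
          ext i
          have h3 := hγ i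
          rw [one_smul] at h3
          rw [f.injective h3]
          rfl
        obtain ⟨x, y, hxy, hsw⟩ := hs
        rw [h1] at hsw
        exact hxy (Equiv.swap_eq_one_iff.1 hsw.symm)
      have h4 := Pool.Agent.NH85.CE.card_le_base_mul B hB γ hγ1 (h.support.map f.toEmbedding) (by
        intro x hx
        rw [Finset.mem_map]
        refine ⟨f.symm x, ?_, f.apply_symm_apply x⟩
        rw [Equiv.Perm.mem_support]
        intro h5
        apply hx
        have h6 := hγ (f.symm x)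
        rw [h5, Equiv.apply_symm_apply] at h6
        exact h6.symm)
      rw [Finset.card_map, Equiv.Perm.card_support_eq_two.2 hs] at h4
      have h5 : (Nat.card P : ℝ) ≤ B.card * 2 := by exact_mod_cast h4
      have h6 : (1 : ℝ) ≤ U.index := by
        exact_mod_cast Nat.one_le_iff_ne_zero.2 Subgroup.index_ne_zero_of_finite
      have h7 : (1 : ℝ) ≤ (U.index : ℝ) ^ 2 := one_le_pow₀ h6
      have h8 : (B.card : ℝ) ≤ (U.index : ℝ) ^ 2 * B.card := by
        have : (0 : ℝ) ≤ B.card := Nat.cast_nonneg _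
        nlinarith
      push_cast at hc
      norm_num at hc
      linarith

theorem even_part (K : Type) [Field K] [NumberField K] {Γ P : Type} [Group Γ] [Finite Γ]
    [Finite P] [MulAction Γ P] [FaithfulSMul Γ P] [MulAction.IsPretransitive Γ P]
    (hP : 2 ≤ Nat.card P) (hK : (Gal K (AlgebraicClosure K) Γ).Nonempty)
    (hl : Large Γ P (1 / 4)) : EvenPart K Γ P := by
  have hne : Nonempty P := (Nat.card_pos_iff.1 (by omega : 0 < Nat.card P)).1
  constructor
  · intro m H hH d G hG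
    have hm : m = Nat.card P := action_card hH
    refine all_codes K hK (δ := 2) (by norm_num) (by norm_num) ?_ m H hH _
      (Pool.Agent.NH85.CE.stable_evenW H) (even_min (by omega)) d G (even_ext hG)
    norm_num
    exact hl
  · obtain ⟨m, H, hH⟩ := exists_action Γ P
    obtain ⟨d, G, hG⟩ := exists_even H
    exact ⟨m, H, d, G, hH, hG⟩

end Pool.Agent.Results.MP_af4c59_nt.CodeExtensions

open Pool.Agent.Results.MP_af4c59_nt.CodeExtensions in
/-- The weak form of Malle's conjecture for `W ⋊ H ≤ C₂ ≀ H`. -/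
theorem Pool.Agent.Results.MP_af4c59_nt.CodeExtensions.result :
    (∀ (K : Type) [Field K] [NumberField K] (m : ℕ) (H : Subgroup (Equiv.Perm (Fin m)))
      (W : Submodule (ZMod 2) (Fin m → ZMod 2)) (δ : ℕ) (A : ℝ), Bound K H A → Stable H W →
      MinWt W δ → δ ≤ 3 → A ≤ 2 / δ - 1 / 2 → (δ ≤ 2 ∨ ∀ h ∈ H, ¬ h.IsSwap) →
      (∀ (d : ℕ) (G : Subgroup (Equiv.Perm (Fin d))), IsCodeExt H W G → Good K m δ G) ∧
      ∃ (d : ℕ) (G : Subgroup (Equiv.Perm (Fin d))), IsCodeExt H W G) ∧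
    (∀ (K Γ P : Type) [Field K] [NumberField K] [Group Γ] [Finite Γ] [Finite P] [Nonempty P]
      [MulAction Γ P] [FaithfulSMul Γ P] [MulAction.IsPretransitive Γ P] (c : ℝ),
      Realizable K Γ → Large Γ P c →
      ∀ (m : ℕ) (H : Subgroup (Equiv.Perm (Fin m))), IsAction Γ P H → Bound K H (2 * c)) ∧
    (∀ (K Γ P : Type) [Field K] [NumberField K] [Group Γ] [Finite Γ] [Finite P] [Nonempty P]
      [MulAction Γ P] [FaithfulSMul Γ P] [MulAction.IsPretransitive Γ P] (δ : ℕ),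
      Realizable K Γ → 1 ≤ δ → δ ≤ 3 → Large Γ P ((4 - δ) / (4 * δ)) → AllCodes K Γ P δ) ∧
    (∀ (K Γ P : Type) [Field K] [NumberField K] [Group Γ] [Finite Γ] [Finite P]
      [MulAction Γ P] [FaithfulSMul Γ P] [MulAction.IsPretransitive Γ P],
      Realizable K Γ → 2 ≤ Nat.card P → Large Γ P (1 / 4) → EvenPart K Γ P) ∧
    (∀ (A : Type) [Group A] [Finite A] (n : ℕ), ((3 * Nat.card A + 2).factorial) ^ 3 ≤ n →
      ∀ (P : Type) [Finite P] [Nonempty P] [MulAction (Wreath A n) P]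
        [FaithfulSMul (Wreath A n) P] [MulAction.IsPretransitive (Wreath A n) P] (δ : ℕ),
        1 ≤ δ → δ ≤ 3 → 4 * δ * (Nat.card A * n) ^ 2 *
          Nat.log 2 (Nat.card A ^ n * n.factorial) ≤ (4 - δ) * Nat.card P →
        ∀ (K : Type) [Field K] [NumberField K], AllCodes K (Wreath A n) P δ ∧
          (δ = 2 → EvenPart K (Wreath A n) P)) := by
  refine ⟨?_, ?_, ?_, ?_, ?_⟩
  · intro K _ _ m H W δ A hH hW hmin hδ3 hA hmov
    exact ⟨fun d G hG => step K hH hW hmin hδ3 hA hmov hG, exists_ext hW⟩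
  · intro K Γ P _ _ _ _ _ _ _ _ _ c hK hl m H hH
    obtain ⟨U, B, hU, hB, hc⟩ := hl
    refine (bound_action K (gal_of_realizable K Γ hK) U hU B hB hH).mono ?_
    have hP : (0 : ℝ) < Nat.card P := by
      exact_mod_cast (Nat.card_pos : 0 < Nat.card P)
    rw [div_le_iff₀ hP]
    linarith
  · intro K Γ P _ _ _ _ _ _ _ _ _ δ hK hδ1 hδ3 hl
    exact all_codes K (gal_of_realizable K Γ hK) hδ1 hδ3 hl
  · intro K Γ P _ _ _ _ _ _ _ _ hK hP hl
    exact even_part K hP (gal_of_realizable K Γ hK) hl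
  · intro A _ _ n hn P _ _ _ _ _ δ hδ1 hδ3 hP K _ _
    have hA : 1 ≤ Nat.card A := Nat.card_pos
    have hn10 : 10 ≤ n := by
      rcases Pool.Agent.TH444.ML.fact_bound (Nat.card A) with h | h
      · exact h.trans hn
      · omega
    have hfin : Finite (Wreath A n) := Pool.Agent.H391R2.T4.finite_wr A n
    obtain ⟨U, hU, hi⟩ := Pool.Agent.TH444.ML.wr_core A n (by omega)
    obtain ⟨B, hB, hBc⟩ := Pool.Agent.NH85.ML.exists_base (Wreath A n) P
    have hcard : Nat.card (Wreath A n) = Nat.card A ^ n * n.factorial :=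
      Pool.Agent.TH444.ML.wr_card A n
    rw [hcard] at hBc
    have hi' : U.index = Nat.card A * n := hi
    have hGal := (Pool.Agent.TH444.ML.wr_data K A n hn).2.2
    have hlarge : Large (Wreath A n) P ((4 - δ) / (4 * δ)) := by
      refine ⟨U, B, hU, hB, ?_⟩
      have hδ0 : (0 : ℝ) < δ := by exact_mod_cast hδ1
      rw [hi']
      have h1 : 4 * δ * ((Nat.card A * n) ^ 2 * B.card) ≤ (4 - δ) * Nat.card P := by
        refine le_trans ?_ hP
        calc 4 * δ * ((Nat.card A * n) ^ 2 * B.card)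
            = 4 * δ * (Nat.card A * n) ^ 2 * B.card := by ring
          _ ≤ _ := Nat.mul_le_mul_left _ hBc
      have h2 : (4 : ℝ) * δ * ((((Nat.card A * n : ℕ) : ℝ)) ^ 2 * B.card) ≤
          (4 - δ) * Nat.card P := by
        have h3 : ((4 * δ * ((Nat.card A * n) ^ 2 * B.card) : ℕ) : ℝ) ≤
          (((4 - δ) * Nat.card P : ℕ) : ℝ) := by exact_mod_cast h1
        push_cast [Nat.cast_sub (by omega : δ ≤ 4)] at h3
        push_cast
        exact h3
      rw [div_mul_eq_mul_div, le_div_iff₀ (by positivity)]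
      linarith
    refine ⟨all_codes K hGal hδ1 hδ3 hlarge, ?_⟩
    rintro rfl
    refine even_part K ?_ hGal ?_
    · -- the degree is at least two
      by_contra hlt
      have h1 : Nat.card P = 1 := by
        have : 0 < Nat.card P := Nat.card_pos
        omega
      rw [h1] at hP
      have h2 : 1 ≤ Nat.log 2 (Nat.card A ^ n * n.factorial) := by
        refine Nat.le_log_of_pow_le (by norm_num) ?_
        have h3 : 10 ≤ n.factorial := hn10.trans (Nat.self_le_factorial n)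
        have h4 : 1 ≤ Nat.card A ^ n := Nat.one_le_pow _ _ hA
        rw [pow_one]
        nlinarith
      have h5 : 1 ≤ Nat.card A * n := Nat.mul_pos hA (by omega)
      have h6 : 1 ≤ (Nat.card A * n) ^ 2 := Nat.one_le_pow _ _ h5
      have h7 : 4 * 2 * 1 * 1 ≤ 4 * 2 * (Nat.card A * n) ^ 2 *
          Nat.log 2 (Nat.card A ^ n * n.factorial) := by gcongr
      omega
    · norm_num at hlarge
      exact hlarge
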