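import Mathlib
import Pool.Agent.NH85.ML.WeakOut

/-!
# The weak form of Malle's conjecture for iterated wreath products `C₂ ≀ (C₂ ≀ ⋯ ≀ (C₂ ≀ Γ))`

If a permutation group `H` of degree `m` occurs as a Galois group over the number field `K` and
`N_{m,K}(X; H) = O(X ^ A)` for some `A < 3 / 2`, then the weak form of Malle's conjecture holds over `K`
for `C₂ ≀ H` (of degree `2 m`). In particular the weak form passes from `H` to `C₂ ≀ H`. So it holds for
all iterated wreath products of `Γ`, in any faithful transitive action of large degree, with groups of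
order two; over every number field if `Γ = A ≀ S_m`, `m ≥ ((3 |A| + 2)!) ^ 3`.
-/

set_option autoImplicit false

open Filter

namespace Pool.Agent.Results.MP_af4c59_nt.IteratedWreath

/-- The wreath product `A ≀ S_n = A ^ n ⋊ S_n`. -/
abbrev Wreath (A : Type) [Group A] (n : ℕ) : Type :=
  (Fin n → A) ⋊[mulAutArrow] Equiv.Perm (Fin n)

/-- The index of a permutation: `d` minus the number of its cycles, fixed points included. -/
def ind {d : ℕ} (g : Equiv.Perm (Fin d)) : ℕ := g.cycleType.sum - Multiset.card g.cycleType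

/-- `a(G) = 1 / min ind(g)`, the minimum over the `g ≠ 1` in `G`. -/
noncomputable def a {d : ℕ} (G : Subgroup (Equiv.Perm (Fin d))) : ℝ :=
  1 / (sInf {j : ℕ | ∃ g ∈ G, g ≠ 1 ∧ j = ind g} : ℕ)

/-- `N_{d,K}(X; G)`: the number of fields `L` between `K` and its algebraic closure, of degree `d`
over `K`, whose Galois group, acting on the embeddings, is `G` (up to numbering), and whose relative
discriminant has norm at most `X` (that is, `|d_L| ≤ X |d_K| ^ d`). -/
noncomputable def N (K : Type) [Field K] [NumberField K] (d : ℕ)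
    (G : Subgroup (Equiv.Perm (Fin d))) (X : ℝ) : ℕ :=
  Set.ncard {L : IntermediateField K (AlgebraicClosure K) |
    Module.finrank K L = d ∧
    (∃ e : (L →ₐ[K] AlgebraicClosure K) ≃ Fin d, ∀ π : Equiv.Perm (Fin d),
      π ∈ G ↔ ∃ σ : AlgebraicClosure K ≃ₐ[K] AlgebraicClosure K,
        ∀ φ : L →ₐ[K] AlgebraicClosure K, e (σ.toAlgHom.comp φ) = π (e φ)) ∧
    ∃ h : NumberField L,
      ((|@NumberField.discr L _ h| : ℤ) : ℝ) ≤ X * ((|NumberField.discr K| : ℤ) : ℝ) ^ d}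

/-- The weak form of Malle's conjecture for `(K, G)`. -/
def WeakMalle (K : Type) [Field K] [NumberField K] {d : ℕ} (G : Subgroup (Equiv.Perm (Fin d))) :
    Prop :=
  (∃ c₁ : ℝ, 0 < c₁ ∧ ∃ X₀ : ℝ, ∀ X : ℝ, X₀ ≤ X → c₁ * X ^ a G ≤ N K d G X) ∧
  (∀ ε : ℝ, 0 < ε → ∃ c₂ : ℝ, 0 < c₂ ∧ ∃ X₀ : ℝ, ∀ X : ℝ, X₀ ≤ X →
    (N K d G X : ℝ) < c₂ * X ^ (a G + ε))

/-- `G ≤ S_d` is, up to a bijection `f` of `{1, ..., d}` with `{1, ..., m} × {0, 1}`, the wreath
product `C₂ ≀ H`: it consists of all permutations `π` for which there is `h ∈ H` such that `π` maps the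
block `{x} × {0, 1}` to the block `{h x} × {0, 1}`, for all `x`. -/
def IsC2Wr {m : ℕ} (H : Subgroup (Equiv.Perm (Fin m))) {d : ℕ} (G : Subgroup (Equiv.Perm (Fin d))) :
    Prop :=
  ∃ f : Fin d ≃ Fin m × Bool, ∀ π : Equiv.Perm (Fin d), π ∈ G ↔
    ∃ h ∈ H, ∀ i, (f (π i)).1 = h (f i).1

/-- `G ≤ S_d` is the group `Γ`, acting on `P`. -/
def IsAction (Γ P : Type) [Group Γ] [MulAction Γ P] {d : ℕ} (G : Subgroup (Equiv.Perm (Fin d))) :
    Prop :=
  ∃ f : Fin d ≃ P, ∀ π : Equiv.Perm (Fin d), π ∈ G ↔ ∃ γ : Γ, ∀ i, f (π i) = γ • f i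

/-- `G` is the iterated wreath product `C₂ ≀ (C₂ ≀ ⋯ ≀ (C₂ ≀ Γ))` with `j` factors `C₂`, `Γ` acting on
`P`; its degree is `2 ^ j |P|`. -/
def IsIterated (Γ P : Type) [Group Γ] [MulAction Γ P] :
    ℕ → ∀ {d : ℕ}, Subgroup (Equiv.Perm (Fin d)) → Prop
  | 0, _, G => IsAction Γ P G
  | j + 1, _, G => ∃ (m : ℕ) (H : Subgroup (Equiv.Perm (Fin m))), IsIterated Γ P j H ∧ IsC2Wr H G

/-- `Γ` is the Galois group of a Galois extension of `K`. -/
def Realizable (K Γ : Type) [Field K] [Group Γ] : Prop :=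
  ∃ (L : Type) (_ : Field L) (_ : Algebra K L), IsGalois K L ∧ Nonempty (Γ ≃* (L ≃ₐ[K] L))

/-- The degree of the action of `Γ` on `P` is large: `Γ` has a subgroup `U` of index `u` with trivial
normal core and the action has a base `B` with `8 u (u + 1) |B| ≤ |P|`. -/
def LargeDegree (Γ P : Type) [Group Γ] [MulAction Γ P] : Prop :=
  ∃ (U : Subgroup Γ) (B : Finset P), U.normalCore = ⊥ ∧
    (∀ γ : Γ, (∀ x ∈ B, γ • x = x) → γ = 1) ∧
    8 * U.index * (U.index + 1) * B.card ≤ Nat.card P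

/-- For all iterated wreath products `G` of `Γ`, acting on `P`, with `j ≥ 1` factors `C₂` the weak form
of Malle's conjecture holds over `K`, `a(G) = 1`, and `G` is transitive, of degree `2 ^ j |P|`; and
there is such a `G` for every `j`. -/
def AllIterated (K Γ P : Type) [Field K] [NumberField K] [Group Γ] [MulAction Γ P] : Prop :=
  ∀ j : ℕ, 1 ≤ j →
    (∀ (d : ℕ) (G : Subgroup (Equiv.Perm (Fin d))), IsIterated Γ P j G →
      WeakMalle K G ∧ a G = 1 ∧ d = 2 ^ j * Nat.card P ∧ ∀ x y : Fin d, ∃ g ∈ G, g x = y) ∧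
    ∃ (d : ℕ) (G : Subgroup (Equiv.Perm (Fin d))), IsIterated Γ P j G

open Pool.Agent.NH85.ML Pool.Agent.TH444.ML

theorem a_eq {m : ℕ} [NeZero m] {H : Subgroup (Equiv.Perm (Fin m))} {d : ℕ}
    {G : Subgroup (Equiv.Perm (Fin d))} (hG : IsC2Wr H G) : a G = 1 := by
  have h := least_indP (Q := Fin m) (H := H) (G := G) hG
  have h2 : sInf {j : ℕ | ∃ g ∈ G, g ≠ 1 ∧ j = ind g} = 1 := h.csInf_eq
  unfold a
  rw [h2]
  simp

theorem weak_of_good (K : Type) [Field K] [NumberField K] {m : ℕ} [NeZero m]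
    {H : Subgroup (Equiv.Perm (Fin m))} {d : ℕ} {G : Subgroup (Equiv.Perm (Fin d))}
    (hG : IsC2Wr H G) {A : ℝ} (hA : A < 3 / 2) (h : Good K H A) : WeakMalle K G ∧ a G = 1 := by
  have ha := a_eq hG
  obtain ⟨h1, h2⟩ := weak_bounds K (Q := Fin m) (H := H) (G := G) hG hA h
  refine ⟨?_, ha⟩
  unfold WeakMalle
  rw [ha]
  refine ⟨?_, h2⟩
  obtain ⟨c, hc, X₀, hX₀⟩ := h1
  refine ⟨c, hc, X₀, fun X hX => ?_⟩
  rw [Real.rpow_one]
  exact hX₀ X hX

/-- the action of `Γ` on `P`, transported to `{1, ..., d}` -/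
theorem good_action (K : Type) [Field K] [NumberField K] {Γ P : Type} [Group Γ] [MulAction Γ P]
    {d : ℕ} {G : Subgroup (Equiv.Perm (Fin d))} (hG : IsAction Γ P G) {A : ℝ}
    (h : Good K (img Γ P) A) : Good K G A := by
  obtain ⟨f, hf⟩ := hG
  have hiff : ∀ L : IntermediateField K (AlgebraicClosure K),
      HasG K (AlgebraicClosure K) G L ↔ HasG K (AlgebraicClosure K) (img Γ P) L := by
    intro L
    refine hasGp_of_equiv K f (img Γ P) (fun π => ?_) L
    rw [hf]
    constructor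
    · rintro ⟨γ, h1⟩
      refine ⟨γ, ?_⟩
      ext x
      rw [Equiv.permCongr_apply, h1, Equiv.apply_symm_apply]
      rfl
    · rintro ⟨γ, h1⟩
      refine ⟨γ, fun i => ?_⟩
      have h2 := congrArg (fun ρ : Equiv.Perm P => ρ (f i)) h1
      rw [Equiv.permCongr_apply, Equiv.symm_apply_apply] at h2
      exact h2.symm
  have hT : ∀ Z : ℝ, TTX K (AlgebraicClosure K) G Z = TTX K (AlgebraicClosure K) (img Γ P) Z := by
    intro Z
    ext L
    constructor
    · rintro ⟨⟨h1, h2⟩, h3⟩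
      exact ⟨⟨h1, (hiff L).1 h2⟩, h3⟩
    · rintro ⟨⟨h1, h2⟩, h3⟩
      exact ⟨⟨h1, (hiff L).2 h2⟩, h3⟩
  constructor
  · obtain ⟨M, h1, h2⟩ := h.ne
    exact ⟨M, h1, (hiff M).2 h2⟩
  · obtain ⟨C, hC0, hC⟩ := h.upper
    exact ⟨C, hC0, fun Z hZ => by rw [hT]; exact hC Z hZ⟩

/-- transitivity passes to the wreath product -/
theorem trans_step {m : ℕ} {H : Subgroup (Equiv.Perm (Fin m))} {d : ℕ}
    {G : Subgroup (Equiv.Perm (Fin d))} (hG : IsC2Wr H G) (hH : ∀ x y : Fin m, ∃ h ∈ H, h x = y) :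
    ∀ x y : Fin d, ∃ g ∈ G, g x = y := by
  obtain ⟨f, hf⟩ := hG
  intro i j
  obtain ⟨h, hh, hij⟩ := hH (f i).1 (f j).1
  let t : Equiv.Perm (Fin m × Bool) := h.prodCongr (Equiv.swap (f i).2 (f j).2)
  refine ⟨f.trans (t.trans f.symm), (hf _).2 ⟨h, hh, fun x => ?_⟩, ?_⟩
  · simp [t]
  · change f.symm (t (f i)) = j
    rw [Equiv.symm_apply_eq]
    exact Prod.ext (by simp [t, hij]) (by simp [t])

/-- the wreath product exists -/
theorem exists_step {m : ℕ} (H : Subgroup (Equiv.Perm (Fin m))) :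
    ∃ (d : ℕ) (G : Subgroup (Equiv.Perm (Fin d))), IsC2Wr H G := by
  have hcard : Nat.card (Fin m × Bool) = 2 * m := by
    rw [Nat.card_prod, mul_comm]
    simp
  let f : Fin (2 * m) ≃ Fin m × Bool := (Finite.equivFinOfCardEq hcard).symm
  let e : Equiv.Perm (Fin (2 * m)) ≃* Equiv.Perm (Fin m × Bool) := f.permCongrHom
  refine ⟨2 * m, (W2 H).comap e.toMonoidHom, f, fun π => ?_⟩
  rw [Subgroup.mem_comap]
  constructor
  · rintro ⟨h, hh, h1⟩
    refine ⟨h, hh, fun i => ?_⟩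
    have h2 := h1 (f i)
    have h3 : e.toMonoidHom π (f i) = f (π i) := by
      change f (π (f.symm (f i))) = _
      rw [Equiv.symm_apply_apply]
    rw [h3] at h2
    exact h2
  · rintro ⟨h, hh, h1⟩
    refine ⟨h, hh, fun x => ?_⟩
    have h3 : e.toMonoidHom π x = f (π (f.symm x)) := rfl
    rw [h3, h1, Equiv.apply_symm_apply]

/-- everything about `j` factors -/
theorem iter_data (K Γ P : Type) [Field K] [NumberField K] [Group Γ] [MulAction Γ P] [Finite P]
    [Nonempty P] [MulAction.IsPretransitive Γ P] (h : Good K (img Γ P) (1 / 4)) (j : ℕ) :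
    (∀ (d : ℕ) (G : Subgroup (Equiv.Perm (Fin d))), IsIterated Γ P j G →
      d = 2 ^ j * Nat.card P ∧ (∀ x y : Fin d, ∃ g ∈ G, g x = y) ∧ Good K G (5 / 4)) ∧
    ∃ (d : ℕ) (G : Subgroup (Equiv.Perm (Fin d))), IsIterated Γ P j G := by
  induction j with
  | zero =>
    constructor
    · intro d G hG
      refine ⟨?_, ?_, ?_⟩
      · obtain ⟨f, -⟩ := hG
        rw [pow_zero, one_mul, ← Nat.card_congr f, Nat.card_fin]
      · obtain ⟨f, hf⟩ := hG
        intro x y
        obtain ⟨γ, hγ⟩ := MulAction.exists_smul_eq Γ (f x) (f y)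
        refine ⟨f.symm.permCongr (MulAction.toPerm γ), (hf _).2 ⟨γ, fun i => ?_⟩, ?_⟩
        · rw [Equiv.permCongr_apply, Equiv.symm_symm, Equiv.apply_symm_apply]
          rfl
        · rw [Equiv.permCongr_apply, Equiv.symm_symm, Equiv.symm_apply_eq]
          exact hγ
      · have h1 := good_action K hG h
        refine ⟨h1.ne, ?_⟩
        obtain ⟨C, hC0, hC⟩ := h1.upper
        refine ⟨C, hC0, fun Z hZ => (hC Z hZ).trans ?_⟩
        exact mul_le_mul_of_nonneg_left
          (Real.rpow_le_rpow_of_exponent_le hZ (by norm_num)) hC0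
    · let f : Fin (Nat.card P) ≃ P := (Finite.equivFin P).symm
      let e : Equiv.Perm (Fin (Nat.card P)) ≃* Equiv.Perm P := f.permCongrHom
      refine ⟨Nat.card P, (img Γ P).comap e.toMonoidHom, f, fun π => ?_⟩
      rw [Subgroup.mem_comap]
      have h3 : ∀ x, e.toMonoidHom π x = f (π (f.symm x)) := fun x => rfl
      constructor
      · rintro ⟨γ, h1⟩
        refine ⟨γ, fun i => ?_⟩
        have h2 := congrArg (fun ρ : Equiv.Perm P => ρ (f i)) h1
        simp only [h3, Equiv.symm_apply_apply] at h2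
        exact h2.symm
      · rintro ⟨γ, h1⟩
        refine ⟨γ, ?_⟩
        ext x
        rw [h3, h1, Equiv.apply_symm_apply]
        rfl
  | succ j ih =>
    obtain ⟨ih1, ih2⟩ := ih
    constructor
    · rintro d G ⟨m, H, hH, hG⟩
      obtain ⟨h1, h2, h3⟩ := ih1 m H hH
      refine ⟨?_, trans_step hG h2, ?_⟩
      · have h4 := isWrP_deg (Q := Fin m) (H := H) (G := G) hG
        rw [Nat.card_fin] at h4
        rw [h4, h1, pow_succ]
        ring
      · have h5 := good_step K (Q := Fin m) (H := H) (G := G) hG (by norm_num) h3 (1 / 4)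
          (by norm_num)
        norm_num at h5
        exact h5
    · obtain ⟨m, H, hH⟩ := ih2
      obtain ⟨d, G, hG⟩ := exists_step H
      exact ⟨d, G, m, H, hH, hG⟩

theorem all_of_good (K Γ P : Type) [Field K] [NumberField K] [Group Γ] [MulAction Γ P] [Finite P]
    [Nonempty P] [MulAction.IsPretransitive Γ P] (h : Good K (img Γ P) (1 / 4)) :
    AllIterated K Γ P := by
  intro j hj
  obtain ⟨i, rfl⟩ : ∃ i, j = i + 1 := ⟨j - 1, by omega⟩
  obtain ⟨h1, h2⟩ := iter_data K Γ P h (i + 1)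
  refine ⟨?_, h2⟩
  rintro d G hG
  obtain ⟨h3, h4, -⟩ := h1 d G hG
  obtain ⟨m, H, hH, hGH⟩ := hG
  obtain ⟨h5, -, h6⟩ := (iter_data K Γ P h i).1 m H hH
  have hm : NeZero m := ⟨by
    rw [h5]
    have : 0 < Nat.card P := Nat.card_pos
    positivity⟩
  obtain ⟨h7, h8⟩ := weak_of_good K hGH (by norm_num : (5 / 4 : ℝ) < 3 / 2) h6
  exact ⟨h7, h8, h3, h4⟩

theorem gal_of_realizable (K Γ : Type) [Field K] [NumberField K] [Group Γ] [Finite Γ]
    (h : Realizable K Γ) : (Gal K (AlgebraicClosure K) Γ).Nonempty := by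
  obtain ⟨F, _, _, hg, ⟨e⟩⟩ := h
  have hfin : Finite (F ≃ₐ[K] F) := Finite.of_equiv Γ e.toEquiv
  have hfd : FiniteDimensional K F := fd_of_finite_aut K F
  let j : F →ₐ[K] AlgebraicClosure K := IsAlgClosed.lift
  let ε : F ≃ₐ[K] j.fieldRange := AlgEquiv.ofInjectiveField j
  refine ⟨j.fieldRange, ?_, ?_, ?_⟩
  · exact Module.Finite.equiv ε.toLinearEquiv
  · exact IsGalois.of_algEquiv ε
  · exact ⟨(AlgEquiv.autCongr ε).symm.trans e.symm⟩

end Pool.Agent.Results.MP_af4c59_nt.IteratedWreath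

open Pool.Agent.Results.MP_af4c59_nt.IteratedWreath in
/-- (1) If `K` has an extension with group `H ≤ S_m` and `N_{m,K}(X; H) = O(X ^ A)` with `A < 3 / 2`, then
the weak form of Malle's conjecture holds over `K` for `C₂ ≀ H`. (2) In particular it passes from `H` to
`C₂ ≀ H`. (3) It holds for all `C₂ ≀ (C₂ ≀ ⋯ ≀ (C₂ ≀ Γ))` if `Γ` is a Galois group over `K`, in a faithful
transitive action of large degree; (4) over every number field if `Γ = A ≀ S_m`. -/
theorem Pool.Agent.Results.MP_af4c59_nt.IteratedWreath.result :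
    (∀ (K : Type) [Field K] [NumberField K] (m : ℕ) [NeZero m] (H : Subgroup (Equiv.Perm (Fin m)))
      (A C X₀ : ℝ), A < 3 / 2 → (∃ X : ℝ, 0 < N K m H X) →
      (∀ X : ℝ, X₀ ≤ X → (N K m H X : ℝ) ≤ C * X ^ A) →
      ∀ (d : ℕ) (G : Subgroup (Equiv.Perm (Fin d))), IsC2Wr H G → WeakMalle K G ∧ a G = 1) ∧
    (∀ (K : Type) [Field K] [NumberField K] (m : ℕ) [NeZero m] (H : Subgroup (Equiv.Perm (Fin m))),
      WeakMalle K H →
      ∀ (d : ℕ) (G : Subgroup (Equiv.Perm (Fin d))), IsC2Wr H G → WeakMalle K G ∧ a G = 1) ∧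
    (∀ (K Γ P : Type) [Field K] [NumberField K] [Group Γ] [Finite Γ] [Finite P] [Nonempty P]
      [MulAction Γ P] [FaithfulSMul Γ P] [MulAction.IsPretransitive Γ P],
      Realizable K Γ → LargeDegree Γ P → AllIterated K Γ P) ∧
    (∀ (A : Type) [Group A] [Finite A] (m : ℕ), ((3 * Nat.card A + 2).factorial) ^ 3 ≤ m →
      ∀ (P : Type) [Finite P] [Nonempty P] [MulAction (Wreath A m) P]
        [FaithfulSMul (Wreath A m) P] [MulAction.IsPretransitive (Wreath A m) P],
        8 * (Nat.card A * m) * (Nat.card A * m + 1) *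
          Nat.log 2 (Nat.card A ^ m * m.factorial) ≤ Nat.card P →
        ∀ (K : Type) [Field K] [NumberField K], AllIterated K (Wreath A m) P) := by
  have h1 : ∀ (K : Type) [Field K] [NumberField K] (m : ℕ) [NeZero m]
      (H : Subgroup (Equiv.Perm (Fin m)))
      (A C X₀ : ℝ), A < 3 / 2 → (∃ X : ℝ, 0 < N K m H X) →
      (∀ X : ℝ, X₀ ≤ X → (N K m H X : ℝ) ≤ C * X ^ A) →
      ∀ (d : ℕ) (G : Subgroup (Equiv.Perm (Fin d))), IsC2Wr H G → WeakMalle K G ∧ a G = 1 := by
    intro K _ _ m hm H A C X₀ hA hne hC d G hG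
    refine weak_of_good K hG (A := max A 0) (max_lt hA (by norm_num)) ?_
    refine Pool.Agent.NH85.ML.good_of_cnt K (Nat.pos_of_ne_zero hm.out) H |C| (max X₀ 1)
      (fun X hX => ?_) hne
    have hX0 : X₀ ≤ X := (le_max_left _ _).trans hX
    have hX1 : 1 ≤ X := (le_max_right _ _).trans hX
    have h2 : X ^ A ≤ X ^ (max A 0) := Real.rpow_le_rpow_of_exponent_le hX1 (le_max_left _ _)
    have h3 : (0 : ℝ) ≤ X ^ A := Real.rpow_nonneg (by linarith) _
    calc (Set.ncard (Pool.Agent.TH444.ML.Cnt K H X) : ℝ) ≤ C * X ^ A := hC X hX0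
      _ ≤ |C| * X ^ A := mul_le_mul_of_nonneg_right (le_abs_self C) h3
      _ ≤ |C| * X ^ (max A 0) := mul_le_mul_of_nonneg_left h2 (abs_nonneg C)
  refine ⟨h1, ?_, ?_, ?_⟩
  · intro K _ _ m hm H hH d G hG
    obtain ⟨⟨c₁, hc₁, X₁, hX₁⟩, hup⟩ := hH
    obtain ⟨c₂, hc₂, X₂, hX₂⟩ := hup (1 / 4) (by norm_num)
    have ha : a H ≤ 1 := by
      unfold a
      rcases Nat.eq_zero_or_pos (sInf {j : ℕ | ∃ g ∈ H, g ≠ 1 ∧ j = ind g}) with h | h
      · rw [h]; simp
      · rw [div_le_one (by exact_mod_cast h)]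
        exact_mod_cast h
    refine h1 K m H (5 / 4) c₂ (max X₂ 1) (by norm_num) ?_ ?_ d G hG
    · refine ⟨max X₁ 1, ?_⟩
      have h2 := hX₁ (max X₁ 1) (le_max_left _ _)
      have h3 : (0 : ℝ) < (max X₁ 1) ^ a H :=
        Real.rpow_pos_of_pos (lt_of_lt_of_le one_pos (le_max_right _ _)) _
      have h4 : (0 : ℝ) < N K m H (max X₁ 1) := (mul_pos hc₁ h3).trans_le h2
      exact_mod_cast h4
    · intro X hX
      have hX0 : X₂ ≤ X := (le_max_left _ _).trans hX
      have hX1 : 1 ≤ X := (le_max_right _ _).trans hX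
      refine (hX₂ X hX0).le.trans ?_
      exact mul_le_mul_of_nonneg_left
        (Real.rpow_le_rpow_of_exponent_le hX1 (by linarith)) hc₂.le
  · intro K Γ P _ _ _ _ _ _ _ _ _ hK hl
    obtain ⟨U, B, hU, hB, hc⟩ := hl
    exact all_of_good K Γ P (Pool.Agent.NH85.ML.good_of_large K Γ P U hU B hB hc
      (gal_of_realizable K Γ hK))
  · intro A _ _ m hm P _ _ _ _ _ hP K _ _
    have hA : 1 ≤ Nat.card A := Nat.card_pos
    have hm10 : 10 ≤ m := by
      rcases Pool.Agent.TH444.ML.fact_bound (Nat.card A) with h | h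
      · exact h.trans hm
      · omega
    have hfin : Finite (Wreath A m) := Pool.Agent.H391R2.T4.finite_wr A m
    obtain ⟨U, hU, hi⟩ := Pool.Agent.TH444.ML.wr_core A m (by omega)
    obtain ⟨B, hB, hBc⟩ := Pool.Agent.NH85.ML.exists_base (Wreath A m) P
    have hcard : Nat.card (Wreath A m) = Nat.card A ^ m * m.factorial :=
      Pool.Agent.TH444.ML.wr_card A m
    rw [hcard] at hBc
    have hi' : U.index = Nat.card A * m := hi
    refine all_of_good K (Wreath A m) P (Pool.Agent.NH85.ML.good_of_large K (Wreath A m) P U hU B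
      hB ?_ (Pool.Agent.TH444.ML.wr_data K A m hm).2.2)
    rw [hi']
    exact (Nat.mul_le_mul_left _ hBc).trans hP
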