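import Mathlib
import Pool.Agent.NH85.ML.Out

/-!
# Malle's conjecture for `C₂ ≀ Γ`, `Γ` in any faithful transitive action of large degree

`Γ` is a finite group acting faithfully and transitively on the finite set `P` (not necessarily on
itself), and `G = C₂ ≀ Γ` is the imprimitive wreath product, acting on `P × {0, 1}`. The extensions of
`K` with group `Γ`, acting on `P`, need not be Galois. If `Γ` has a subgroup `U` of index `u` with
trivial normal core, `B ⊆ P` is a base (a set of points with trivial pointwise stabilizer) and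
`8 u (u + 1) |B| ≤ |P|`, and `Γ` is a Galois group over the number field `K`, then Malle's conjecture
(the asymptotic formula and the weak form) holds for `G` over `K`.

In particular it holds over every number field for `Γ = A ≀ S_m`, `A` any finite group and
`m ≥ ((3 |A| + 2)!) ^ 3`, in every faithful transitive action of degree at least
`8 |A| m (|A| m + 1) log₂ |Γ|`.
-/

set_option autoImplicit false

open Filter

namespace Pool.Agent.Results.MP_af4c59_nt.NonRegularActions

/-- The wreath product `A ≀ S_n = A ^ n ⋊ S_n`. -/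
abbrev Wreath (A : Type) [Group A] (n : ℕ) : Type :=
  (Fin n → A) ⋊[mulAutArrow] Equiv.Perm (Fin n)

/-- `G ≤ S_d` is, up to a bijection `f` of `{1, ..., d}` with `P × {0, 1}`, the wreath product
`C₂ ≀ Γ`, `Γ` acting on `P`: it consists of all permutations `π` for which there is `γ ∈ Γ` such that
`π` maps the block `{x} × {0, 1}` to the block `{γ x} × {0, 1}`, for all `x ∈ P`. -/
def IsC2Wreath (Γ P : Type) [Group Γ] [MulAction Γ P] {d : ℕ} (G : Subgroup (Equiv.Perm (Fin d))) :
    Prop :=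
  ∃ f : Fin d ≃ P × Bool, ∀ π : Equiv.Perm (Fin d), π ∈ G ↔ ∃ γ : Γ, ∀ i, (f (π i)).1 = γ • (f i).1

/-- The index of a permutation: `d` minus the number of its cycles, fixed points included. -/
def ind {d : ℕ} (g : Equiv.Perm (Fin d)) : ℕ := g.cycleType.sum - Multiset.card g.cycleType

/-- `a(G) = 1 / min ind(g)`, the minimum over the `g ≠ 1` in `G`. -/
noncomputable def a {d : ℕ} (G : Subgroup (Equiv.Perm (Fin d))) : ℝ :=
  1 / (sInf {j : ℕ | ∃ g ∈ G, g ≠ 1 ∧ j = ind g} : ℕ)

/-- `N_{d,K}(X; G)`: the number of fields `L` between `K` and its algebraic closure, of degree `d`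
over `K`, whose Galois group, acting on the embeddings, is `G` (up to numbering), and whose relative
discriminant has norm at most `X` (that is, `|d_L| ≤ X |d_K| ^ d`). -/
noncomputable def N (K : Type) [Field K] [NumberField K] (d : ℕ)
    (G : Subgroup (Equiv.Perm (Fin d))) (X : ℝ) : ℕ :=
  Set.ncard {L : IntermediateField K (AlgebraicClosure K) |
    Module.finrank K L = d ∧
    (∃ e : (L →ₐ[K] AlgebraicClosure K) ≃ Fin d, ∀ π : Equiv.Perm (Fin d),
      π ∈ G ↔ ∃ σ : AlgebraicClosure K ≃ₐ[K] AlgebraicClosure K,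
        ∀ φ : L →ₐ[K] AlgebraicClosure K, e (σ.toAlgHom.comp φ) = π (e φ)) ∧
    ∃ h : NumberField L,
      ((|@NumberField.discr L _ h| : ℤ) : ℝ) ≤ X * ((|NumberField.discr K| : ℤ) : ℝ) ^ d}

/-- Malle's conjecture for `(K, G)`: the asymptotic formula `N_{d,K}(X; G) ~ c X ^ a(G)` (so
`b(K, G) = 1`), and the inequalities of the weak form. -/
def Malle (K : Type) [Field K] [NumberField K] (d : ℕ) (G : Subgroup (Equiv.Perm (Fin d))) :
    Prop :=
  (∃ c : ℝ, 0 < c ∧ Tendsto (fun X : ℝ => (N K d G X : ℝ) / X ^ a G) atTop (nhds c)) ∧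
  (∃ c₁ : ℝ, 0 < c₁ ∧ ∃ X₀ : ℝ, ∀ X : ℝ, X₀ ≤ X → c₁ * X ^ a G ≤ N K d G X) ∧
  (∀ ε : ℝ, 0 < ε → ∃ c₂ : ℝ, 0 < c₂ ∧ ∃ X₀ : ℝ, ∀ X : ℝ, X₀ ≤ X →
    (N K d G X : ℝ) < c₂ * X ^ (a G + ε))

/-- Malle's conjecture over `K`, with `a(G) = 1`, for the subgroups `G` of symmetric groups of the
form `C₂ ≀ Γ`, `Γ` acting on `P`. -/
def MalleOrderTwo (K : Type) [Field K] [NumberField K] (Γ P : Type) [Group Γ] [MulAction Γ P] :
    Prop :=
  ∀ (d : ℕ) (G : Subgroup (Equiv.Perm (Fin d))), IsC2Wreath Γ P G → a G = 1 ∧ Malle K d G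

/-- The group `C₂ ≀ Γ` exists, of degree `2 |P|`, and is transitive. -/
def Exists2 (Γ P : Type) [Group Γ] [MulAction Γ P] : Prop :=
  ∃ (d : ℕ) (G : Subgroup (Equiv.Perm (Fin d))), d = 2 * Nat.card P ∧ IsC2Wreath Γ P G ∧
    ∀ i j : Fin d, ∃ g ∈ G, g i = j

/-- `Γ` is the Galois group of a Galois extension of `K`. -/
def Realizable (K Γ : Type) [Field K] [Group Γ] : Prop :=
  ∃ (L : Type) (_ : Field L) (_ : Algebra K L), IsGalois K L ∧ Nonempty (Γ ≃* (L ≃ₐ[K] L))

/-- The degree of the action of `Γ` on `P` is large: `Γ` has a subgroup `U` of index `u` with trivial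
normal core and the action has a base `B` with `8 u (u + 1) |B| ≤ |P|`. -/
def LargeDegree (Γ P : Type) [Group Γ] [MulAction Γ P] : Prop :=
  ∃ (U : Subgroup Γ) (B : Finset P), U.normalCore = ⊥ ∧
    (∀ γ : Γ, (∀ x ∈ B, γ • x = x) → γ = 1) ∧
    8 * U.index * (U.index + 1) * B.card ≤ Nat.card P

theorem a_eq {Γ P : Type} [Group Γ] [MulAction Γ P] [Nonempty P] {d : ℕ}
    {G : Subgroup (Equiv.Perm (Fin d))} (hG : IsC2Wreath Γ P G) : a G = 1 := by
  have h := Pool.Agent.NH85.ML.least_indX (Γ := Γ) (P := P) hG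
  have h2 : sInf {j : ℕ | ∃ g ∈ G, g ≠ 1 ∧ j = ind g} = 1 := h.csInf_eq
  unfold a
  rw [h2]
  simp

theorem of_data (K : Type) [Field K] [NumberField K] (Γ P : Type) [Group Γ] [Finite Γ] [Finite P]
    [Nonempty P] [MulAction Γ P] [FaithfulSMul Γ P] [MulAction.IsPretransitive Γ P]
    (hl : LargeDegree Γ P)
    (hne : (Pool.Agent.TH444.ML.Gal K (AlgebraicClosure K) Γ).Nonempty) :
    MalleOrderTwo K Γ P := by
  intro d G hG
  obtain ⟨U, B, hU, hB, hc⟩ := hl
  obtain ⟨x₀⟩ := (inferInstance : Nonempty P)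
  obtain ⟨M, hM⟩ := hne
  have hne' := Pool.Agent.NH85.ML.galX_of_gal M hM x₀ (fun x => MulAction.exists_smul_eq Γ x₀ x)
  obtain ⟨-, c, hc0, hlim⟩ := Pool.Agent.NH85.ML.asymp_out K (Γ := Γ) (P := P) (d := d) (G := G) hG
    (Pool.Agent.NH85.ML.few_of K (AlgebraicClosure K) U hU B hB hc) hne'
  have ha := a_eq hG
  refine ⟨ha, ?_⟩
  unfold Malle
  rw [ha]
  have hlim' : Tendsto (fun X : ℝ => (N K d G X : ℝ) / X) atTop (nhds c) := hlim
  refine ⟨⟨c, hc0, by simpa using hlim'⟩, ⟨c / 2, by positivity, ?_⟩, ?_⟩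
  · have h := (hlim'.eventually (lt_mem_nhds (by linarith : c / 2 < c))).and
      (eventually_gt_atTop (0 : ℝ))
    obtain ⟨X₀, hX₀⟩ := eventually_atTop.1 h
    refine ⟨X₀, fun X hX => ?_⟩
    obtain ⟨h3, h4⟩ := hX₀ X hX
    rw [lt_div_iff₀ h4] at h3
    rw [Real.rpow_one]
    exact h3.le
  · intro ε hε
    refine ⟨2 * c, by positivity, ?_⟩
    have h := (hlim'.eventually (gt_mem_nhds (by linarith : c < 2 * c))).and
      (eventually_ge_atTop (1 : ℝ))
    obtain ⟨X₀, hX₀⟩ := eventually_atTop.1 h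
    refine ⟨X₀, fun X hX => ?_⟩
    obtain ⟨h3, h4⟩ := hX₀ X hX
    have h5 : (0 : ℝ) < X := by linarith
    rw [div_lt_iff₀ h5] at h3
    refine h3.trans_le ?_
    apply mul_le_mul_of_nonneg_left _ (by positivity)
    calc X = X ^ (1 : ℝ) := (Real.rpow_one X).symm
      _ ≤ X ^ (1 + ε) := Real.rpow_le_rpow_of_exponent_le h4 (by linarith)

theorem gal_of_realizable (K Γ : Type) [Field K] [NumberField K] [Group Γ] [Finite Γ]
    (h : Realizable K Γ) : (Pool.Agent.TH444.ML.Gal K (AlgebraicClosure K) Γ).Nonempty := by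
  obtain ⟨F, _, _, hg, ⟨e⟩⟩ := h
  have hfin : Finite (F ≃ₐ[K] F) := Finite.of_equiv Γ e.toEquiv
  have hfd : FiniteDimensional K F := Pool.Agent.TH444.ML.fd_of_finite_aut K F
  let j : F →ₐ[K] AlgebraicClosure K := IsAlgClosed.lift
  let ε : F ≃ₐ[K] j.fieldRange := AlgEquiv.ofInjectiveField j
  refine ⟨j.fieldRange, ?_, ?_, ?_⟩
  · exact Module.Finite.equiv ε.toLinearEquiv
  · exact IsGalois.of_algEquiv ε
  · exact ⟨(AlgEquiv.autCongr ε).symm.trans e.symm⟩

theorem nonempty_of_large {Γ P : Type} [Group Γ] [Finite Γ] [MulAction Γ P] [Finite P]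
    (u b : ℕ) (hu : 1 ≤ u) (hb : 1 ≤ b) (h : 8 * u * (u + 1) * b ≤ Nat.card P) : Nonempty P := by
  have h1 : 0 < 8 * u * (u + 1) * b := by positivity
  exact (Nat.card_pos_iff.1 (h1.trans_le h)).1

/-- the data for `A ≀ S_m` -/
theorem wr_large (A P : Type) [Group A] [Finite A] (m : ℕ) (hm : 0 < m) [MulAction (Wreath A m) P]
    [FaithfulSMul (Wreath A m) P]
    (h : 8 * (Nat.card A * m) * (Nat.card A * m + 1) *
      Nat.log 2 (Nat.card A ^ m * m.factorial) ≤ Nat.card P) : LargeDegree (Wreath A m) P := by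
  have hfin : Finite (Wreath A m) := Pool.Agent.H391R2.T4.finite_wr A m
  obtain ⟨U, hU, hi⟩ := Pool.Agent.TH444.ML.wr_core A m hm
  obtain ⟨B, hB, hBc⟩ := Pool.Agent.NH85.ML.exists_base (Wreath A m) P
  refine ⟨U, B, hU, hB, ?_⟩
  have hcard : Nat.card (Wreath A m) = Nat.card A ^ m * m.factorial :=
    Pool.Agent.TH444.ML.wr_card A m
  rw [hcard] at hBc
  have hi' : U.index = Nat.card A * m := hi
  rw [hi']
  exact (Nat.mul_le_mul_left _ hBc).trans h

end Pool.Agent.Results.MP_af4c59_nt.NonRegularActions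

open Pool.Agent.Results.MP_af4c59_nt.NonRegularActions in
/-- (1) Malle's conjecture over every number field for `C₂ ≀ Γ`, `Γ = A ≀ S_m` in any faithful
transitive action of degree `≥ 8 |A| m (|A| m + 1) log₂ |Γ|`. (2) The general criterion: Malle's
conjecture over `K` for `C₂ ≀ Γ` whenever `Γ` is a Galois group over `K` and acts faithfully and
transitively on `P` with `LargeDegree`. (3) The groups exist and are transitive. -/
theorem Pool.Agent.Results.MP_af4c59_nt.NonRegularActions.result :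
    (∀ (A : Type) [Group A] [Finite A] (m : ℕ), ((3 * Nat.card A + 2).factorial) ^ 3 ≤ m →
      ∀ (P : Type) [Finite P] [MulAction (Wreath A m) P] [FaithfulSMul (Wreath A m) P]
        [MulAction.IsPretransitive (Wreath A m) P],
        8 * (Nat.card A * m) * (Nat.card A * m + 1) *
          Nat.log 2 (Nat.card A ^ m * m.factorial) ≤ Nat.card P →
        ∀ (K : Type) [Field K] [NumberField K], MalleOrderTwo K (Wreath A m) P) ∧
    (∀ (K Γ P : Type) [Field K] [NumberField K] [Group Γ] [Finite Γ] [Finite P] [Nonempty P]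
      [MulAction Γ P] [FaithfulSMul Γ P] [MulAction.IsPretransitive Γ P],
      Realizable K Γ → LargeDegree Γ P → MalleOrderTwo K Γ P) ∧
    (∀ (Γ P : Type) [Group Γ] [Finite P] [MulAction Γ P] [MulAction.IsPretransitive Γ P],
      Exists2 Γ P) := by
  refine ⟨?_, ?_, ?_⟩
  · intro A _ _ m hm P _ _ _ _ hP K _ _
    have hA : 1 ≤ Nat.card A := Nat.card_pos
    have hm10 : 10 ≤ m := by
      rcases Pool.Agent.TH444.ML.fact_bound (Nat.card A) with h | h
      · exact h.trans hm
      · omega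
    have hfin : Finite (Wreath A m) := Pool.Agent.H391R2.T4.finite_wr A m
    have hlog : 1 ≤ Nat.log 2 (Nat.card A ^ m * m.factorial) := by
      apply Nat.log_pos (by norm_num)
      have h1 : 2 ≤ m.factorial := (by omega : 2 ≤ m).trans (Nat.self_le_factorial m)
      calc 2 ≤ 1 * m.factorial := by omega
        _ ≤ _ := Nat.mul_le_mul_right _ (Nat.one_le_pow _ _ hA)
    have hne : Nonempty P := nonempty_of_large (Γ := Wreath A m) (Nat.card A * m)
      (Nat.log 2 (Nat.card A ^ m * m.factorial)) (Nat.mul_pos hA (by omega)) hlog hP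
    exact of_data K (Wreath A m) P (wr_large A P m (by omega) hP)
      (Pool.Agent.TH444.ML.wr_data K A m hm).2.2
  · intro K Γ P _ _ _ _ _ _ _ _ _ hK hl
    exact of_data K Γ P hl (gal_of_realizable K Γ hK)
  · intro Γ P _ _ _ _
    exact Pool.Agent.NH85.ML.existsX Γ P
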